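import Pool.Agent.H829.CE.Wr
import Pool.Agent.H829.CE.Fs

/-!
# Coarse embeddability through cofinite subgroupoids, and positive scalar curvature

A closed aspherical spin manifold whose fundamental group embeds coarsely into a Hilbert space has no
metric of positive scalar curvature (Rosenberg; Yu; Skandalis, Tu and Yu). Coarse embeddability does
not pass to extensions, not even to extensions of coarsely embeddable groups by locally finite abelian
groups: Arzhantseva and Tessera found coarsely embeddable groups `G` and `G`-sets `X` such that the
permutational wreath product `(ℤ/2) ≀_X G` is not coarsely embeddable. We give a condition on the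
action of `G` on `X`, extensive exactness, which excludes this. It holds for all actions of exact
groups, for all extensively amenable actions and for all recurrent actions of arbitrary groups.

(1) Let the countable group `G` act extensively exactly on `X`, and let `H` be a subgroupoid of the
action groupoid that contains, for every `g`, all but finitely many of the arrows `(g, x)`. Then `G`
is coarsely embeddable if and only if the groups `G_E` (`E` a finite subset of `X`) of the `g` that
preserve `E` and all of whose arrows off `E` are in `H` are coarsely embeddable.

(2) Let `G` act extensively exactly on `X ≠ ∅`. The restricted permutational wreath product `L ≀_X G`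
is coarsely embeddable if and only if `L` and `G` are.

(3) Let `G` act extensively exactly on `X`. The semidirect product of the group of finitary
permutations of `X` and `G` is coarsely embeddable if and only if `G` is.

(4) Recurrent actions are extensively exact.

The action of `G` need not be faithful and `G` need not be exact. In (2) and (3) the kernel of the
homomorphism to `G` is infinite and `G` is not assumed to be exact, so that the theorem of Dadarlat
and Guentner on extensions with exact quotients does not apply.

`CofiniteSubgroupoid`, `offSubgroup`, `ExtensivelyExact` are in `Pool/Agent/H829/EG/Defs.lean`,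
`Wreath`, `RecurrentAction` in `Pool/Agent/H829/CE/WrDefs.lean`, `FinitaryExt` in
`Pool/Agent/H829/CE/FsDefs.lean`. The fibering theorem for coarse embeddability is the one of
helper818 (`MP_01534c_gt`).
-/

set_option autoImplicit false

namespace Pool.Agent.Results.MP_df705a_gt.CofiniteSubgroupoidsCoarse

open Pool.Agent.H829.EG Pool.Agent.H829.CE
open Pool.Agent.N506.EX (CoarselyEmbeds)

universe u v

theorem result :
    -- (1) the criterion
    (∀ {G : Type u} {X : Type v} [Group G] [Countable G] [MulAction G X]
      (H : CofiniteSubgroupoid G X), ExtensivelyExact G X →
      (CoarselyEmbeds G ↔ ∀ E : Finset X, CoarselyEmbeds ↥(H.offSubgroup E))) ∧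
    -- (2) permutational wreath products
    (∀ {L G X : Type u} [Group L] [Group G] [MulAction G X] [Countable L] [Countable G]
      [Countable X] [Nonempty X], ExtensivelyExact G X →
      (CoarselyEmbeds (Wreath L G X) ↔ CoarselyEmbeds L ∧ CoarselyEmbeds G)) ∧
    -- (3) finitary permutations
    (∀ {G X : Type u} [Group G] [MulAction G X] [Countable G] [Countable X],
      ExtensivelyExact G X → (CoarselyEmbeds ↥(FinitaryExt G X) ↔ CoarselyEmbeds G)) ∧
    -- (4) recurrent actions
    (∀ {G : Type u} {X : Type v} [Group G] [MulAction G X],
      RecurrentAction G X → ExtensivelyExact G X) := by
  refine ⟨?_, ?_, ?_, fun h => h.extensivelyExact⟩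
  · intro G X _ _ _ H hX
    refine ⟨fun h E => ?_, fun h => ce_of_offSubgroup H hX h⟩
    exact Pool.Agent.H818.CS.CoarselyEmbeds.of_injective h (H.offSubgroup E).subtype
      (H.offSubgroup E).subtype_injective
  · intro L G X _ _ _ _ _ _ _ hX
    exact wreath_ce hX
  · intro G X _ _ _ _ hX
    exact fs_ce hX

end Pool.Agent.Results.MP_df705a_gt.CofiniteSubgroupoidsCoarse
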