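import Pool.Agent.H818.FG.Main

/-!
# Locally infinite quadric complexes: property A and exactness of groups of automorphisms

Let `M` be a closed aspherical manifold with fundamental group `Γ`. If `Γ` is exact then `M` has no
metric of positive scalar curvature (Yu, for spaces with property A; Higson and Roe; Ozawa). So one
wants to know which groups are exact. Here we treat groups acting on quadric complexes. The
1-skeleta of quadric complexes (Hoda) are the connected graphs in which all isometric cycles have
length four (Bandelt's hereditary modular graphs), for example the 1-skeleta of the two-dimensional
CAT(0) square complexes, and every simply connected C(4)-T(4) small cancellation complex has a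
quadric complex attached to it in a canonical way (Hoda). The graphs may have infinite degrees; it
is only assumed that the numbers of common neighbours of two different vertices are bounded.
Nothing is assumed on properness or cocompactness of the action.

(1) Every metric subspace of bounded geometry of the vertex set has property A.

(2) Let a group `Γ` act by automorphisms on finitely many such graphs. Then `Γ` is exact if and
only if the stabilizers of the families of vertices, one vertex of each graph, are exact. For one
graph: `Γ` is exact if and only if the stabilizers of the vertices are exact.

For (1) the vertices are moved towards a base vertex by random words in two short maps (for locally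
finite graphs this is in the library). For (2) one also needs that the sets of elements which move
a base vertex by a bounded distance behave like stabilizers: for an increasing sequence `C i` of
finite sets of vertices, closed under the given elements of the group and under intervals, the
point of `g C i` that is nearest to the base vertex is unique and, apart from a bounded number of
indices `i`, does not change if `g` is multiplied by the given elements.
-/

set_option autoImplicit false

namespace Pool.Agent.Results.MP_df705a_gt.QuadricExact

open Pool.Agent.H818.FG Pool.Agent.N506.EX

universe u v w t

theorem result :
    (∀ (V : Type v) (G : SimpleGraph V) (N : ℕ), Quadric G → CommonLE G N →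
      ∀ (Y : Type w) (f : Y → V), BoundedGeometry (fun y z => G.dist (f y) (f z)) →
        DistPropertyA fun y z => G.dist (f y) (f z)) ∧
    ∀ (ι : Type t) [Finite ι] (V : ι → Type v) (G : ∀ i, SimpleGraph (V i)) (N : ι → ℕ)
      (Γ : Type u) [Group Γ] [∀ i, MulAction Γ (V i)],
      (∀ i, Quadric (G i)) → (∀ i, CommonLE (G i) (N i)) →
      (∀ i (g : Γ) (x y : V i), (G i).Adj x y → (G i).Adj (g • x) (g • y)) →
      (IsExact Γ ↔ ∀ v : ∀ i, V i, IsExact ↥(⨅ i, MulAction.stabilizer Γ (v i))) :=
  ⟨fun _ _ _ h hN _ f hY => (h.tame hN).subspace_propertyA f hY,
    fun _ _ _ _ _ _ _ _ h hN hact => isExact_iff_family (fun i => (h i).tame (hN i)) hact⟩

end Pool.Agent.Results.MP_df705a_gt.QuadricExact
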