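import Pool.Agent.H829.CE.CoxEx
import Pool.Agent.H829.CE.Cof

/-!
# The reflection trick and groups which are exact or coarsely embeddable

The reflection trick of Davis produces, from a compact aspherical manifold `N` with boundary and
fundamental group `G`, closed aspherical manifolds `M` of the same dimension: `M` is a union of copies
of `N`, glued along pieces of the boundary. Let `L` be a triangulation of the boundary of `N` (flag),
and let `X` be the set of the vertices of the preimage of `L` in the universal cover of `N`, on which
`G` acts freely with finitely many orbits. Let `W` be the right-angled Coxeter group of infinite rank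
with generators `s_x`, `x ∈ X`, which commute if the vertices are joined by an edge. The fundamental
group of `M` is a subgroup of finite index of `W ⋊ G` that contains `G`.

Let `G` act on `X`, let `(W, (s_x)_{x ∈ X})` be a Coxeter system with an arbitrary `G`-invariant Coxeter
matrix (entries `∞` are allowed), let `G` act on `W` by `g s_x g⁻¹ = s_(g x)`, and let `P` be a subgroup
of `W ⋊ G` that contains `G`.

(1) `P` is exact if and only if `G` is exact.

(2) If `X` has finitely many orbits and finite stabilizers, then `P` embeds coarsely into a Hilbert
space if and only if `G` does.

(3) For an arbitrary `G`-set `X`: if `L ≀_X G` is coarsely embeddable for some group `L ≠ 1` then `P`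
is coarsely embeddable.

In (2) and (3) the group `G` is not assumed to be exact; coarse embeddability does not pass to
extensions in general (Arzhantseva and Tessera), so that (2) does not follow from the fact that the
Coxeter group `W` is exact.

A closed aspherical spin manifold whose fundamental group embeds coarsely into a Hilbert space has no
metric of positive scalar curvature. So each theorem on exactness or coarse embeddability of
fundamental groups of finite aspherical complexes (which are homotopy equivalent to compact manifolds
with boundary) gives closed aspherical manifolds without such metrics.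

The proof of (3) is the one of `MP_01534c_gt.HaloProducts`; the Coxeter groups are not contained in
that theorem.
-/

set_option autoImplicit false

namespace Pool.Agent.Results.MP_df705a_gt.ReflectionTrick

open Pool.Agent.H829.CE Pool.Agent.H818.CS
open Pool.Agent.N506.EX (IsExact CoarselyEmbeds)

universe u

theorem result (G W X : Type u) [Group G] [Group W] [MulAction G X] (M : CoxeterMatrix X)
    (cs : CoxeterSystem M W) (φ : G →* MulAut W)
    (hφ : ∀ (g : G) (x : X), φ g (cs.simple x) = cs.simple (g • x))
    (P : Subgroup (W ⋊[φ] G)) (hP : ∀ g : G, (SemidirectProduct.inr g : W ⋊[φ] G) ∈ P) :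
    -- (1) exactness
    (IsExact P ↔ IsExact G) ∧
    -- (2) coarse embeddability, finitely many orbits and finite stabilizers
    ((∃ D : Finset X, ∀ x : X, ∃ g : G, ∃ d ∈ D, g • d = x) →
      (∀ x : X, (MulAction.stabilizer G x : Set G).Finite) →
      (CoarselyEmbeds P ↔ CoarselyEmbeds G)) ∧
    -- (3) coarse embeddability, arbitrary `G`-sets
    (∀ (L : Type u) [Group L] [Nontrivial L], CoarselyEmbeds (Wreath L G X) →
      CoarselyEmbeds P) := by
  have h3 : ∀ (L : Type u) [Group L] [Nontrivial L], CoarselyEmbeds (Wreath L G X) →
      CoarselyEmbeds P := fun L _ _ h =>
    CoarselyEmbeds.of_injective (cox_ce cs φ hφ h) P.subtype P.subtype_injective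
  refine ⟨Cox.exact_iff cs φ P hP, ?_, h3⟩
  rintro ⟨D, hD⟩ hs
  constructor
  · intro h
    let i : G →* P := (SemidirectProduct.inr : G →* W ⋊[φ] G).codRestrict P hP
    refine CoarselyEmbeds.of_injective h i fun a b hab => ?_
    exact SemidirectProduct.inr_injective (congrArg Subtype.val hab)
  · intro hG
    exact h3 (ULift.{u} (Multiplicative (ZMod 2))) (ce_cofinite _ D hD hs hG)

end Pool.Agent.Results.MP_df705a_gt.ReflectionTrick
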